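import Pool.Graph.R_pool_sql_team_seeded_2aa45f1a.Q68.OV.Line
import Pool.Agent.Helper3.GU.OneVar

/-!
# The transcendental part of one singular K3 surface and finitely many graph hypersurfaces

Let `S` be **one** singular K3 surface over `ℚ`. The question Q1 for `S` is whether the period of the
regulator of every nonzero `ξ` in `H_M^3(S, ℚ(4))_tr` is a nonzero rational multiple of
`L'(h^2_tr(S), -1)` (`PeriodStatement`).

For a smooth projective scheme `Y` over `ℚ` let `M^m(Y) = H_M^{2m-5}(Y, ℚ(m))`,
`D^m(Y) = H_𝒟^{2m-5}(Y_ℝ, ℝ(m))`, and `r : M^m(Y) → D^m(Y)` the regulator; here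
`M^4(S) = H_M^3(S, ℚ(4))` contains `T = H_M^3(S, ℚ(4))_tr`, and `D^4(S) = H^2(S(ℂ), ℝ(3))^+` contains the
real line `P` of the transcendental classes; the period of a class in `P` is `(2πi)^{-3}` times its pairing
with `γ`.
The cycles `c` on `S × Y` of the codimension `m - 2` operate by `c_*` on both, from the index `4` on `S`
to the index `m` on `Y`. Let `V ⊆ P` be the rational line of the classes whose period is a rational
multiple of `L'(h^2_tr(S), -1)`. Let `A^m(Y) ⊆ D^m(Y)` be the rational subspace generated by the images
`c_* V`, and `B^m(Y) = B_1^m(Y) ⊕ B_2^m(Y)`, where `B_1^m(Y) ⊆ D^m(Y)` is generated by `A^m(Y)` and the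
`c_* r(x)`, `x` in `T`, and `B_2^m(Y) ⊆ M^m(Y)` by the `c_* x`, `x` in `T` with `r(x) = 0`, for
all cycles `c` as above. They are additive functors of the Chow motive of `Y`, and the map
`A^m(Y) → B^m(Y)` (the inclusion in `B_1^m(Y)`) is bijective if and only if all these `c_* r(x)` are in
`A^m(Y)` and all these `c_* x` with `r(x) = 0` are zero (`LineStable`). For a separated scheme `Z` of finite
type over `ℚ` let `W(Z)` be its weight complex (Gillet, Soulé; `W(Z) = h(Z)` for smooth projective `Z`), and
put `A^{m,i}(Z) = H^i(A^m(W(Z)))`, `B^{m,i}(Z) = H^i(B^m(W(Z)))`. `BijAll C Z` says that the maps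
`A^{m,i}(Z) → B^{m,i}(Z)` are isomorphisms for all `m` and `i`.

For a simple graph `G` with the vertices `0, …, n` let `K_G` be the Kirchhoff polynomial (the sum over the
spanning trees of the products of the variables of their edges) and `Ψ_G` the first Symanzik polynomial
(of the Feynman integrals).

**Theorem.** There is a finite list `L` of graphs with at most three edges at each vertex (graphs obtained
by leaving out and subdividing edges of Feynman graphs of the `φ³`-theory) which depends only on `S` such
that the following statements are equivalent.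

* The question Q1 has a positive answer for `S` (`PeriodStatement`).
* The maps are isomorphisms for all separated schemes `Z` of finite type over `ℚ`.
* They are isomorphisms for the complements of the finitely many graph hypersurfaces `K_G = 0`, `G` in `L`,
  in the affine spaces.
* They are isomorphisms for the finitely many graph hypersurfaces `K_G = 0`, `G` in `L`.
* They are isomorphisms for their complements in the tori, `G` in `L`.
* They are isomorphisms for the complements in the tori of the finitely many hypersurfaces `Ψ_G = 0`, `G` in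
  `L`.

The data (`LineData`, `IsLine`) are those of the theorem on finitely many cubic hypersurfaces
`T(x, y, z) = 1` of the library.
-/

set_option autoImplicit false

open AlgebraicGeometry Pool.Agent.Y116.UV Pool.Agent.Z125.UN Pool.Agent.Q193.LT
  Pool.Agent.Helper3.GU Pool.Agent.Q68.OV

universe w u

namespace Pool.Agent.Results.MP_870c49_nt.FinitelyManyGraphs

/-- **The transcendental part of one singular K3 surface and finitely many graph hypersurfaces.** See the
explanations above. -/
theorem result {S : Sch ℚ} (hS : SmoothProj S) :
    ∃ L : List (Σ n : ℕ, SimpleGraph (Fin (n + 1))), (∀ G ∈ L, Subcubic G.2) ∧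
      ∀ (D : LineData.{w, u} ℚ S 4) (C : PairData.{w} ℚ (ℤ × ℤ) ℚ), IsLine D → IsWeightPair C →
        WeightGen C → BijAll C (aff ℚ ℚ) →
        (∀ Y, SmoothProj Y → (BijAll C Y ↔ ∀ m, LineStable D m Y)) →
        List.TFAE [PeriodStatement D,
          ∀ X : Sch ℚ, FT True X → BijAll C X,
          ∀ G ∈ L, BijAll C (graphS ℚ G.2),
          ∀ G ∈ L, BijAll C (graphH ℚ G.2),
          ∀ G ∈ L, BijAll C (graphT ℚ G.2),
          ∀ G ∈ L, BijAll C (feynmanT ℚ G.2)] := by
  obtain ⟨L, hL, h⟩ := list_pair frac_rat S hS
  refine ⟨L, hL, fun D C hD hC hg h1 bij => h C hg hC h1 (PeriodStatement D) (fun h => ?_)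
    fun h Y hY => (bij Y hY).mpr fun m => ?_⟩
  · rw [← line_holds_iff hD]
    intro x hx
    have h1 := (line_closed_iff 4 S).mpr ((bij S hS).mp h 4) (lineReach D).one x hx
    rwa [(line_isReach hD).act_one] at h1
  · rw [← line_closed_iff]
    intro c x hx
    exact (line_isReach hD).act_mem m Y hY c x ((line_holds_iff hD).mpr h x hx)

end Pool.Agent.Results.MP_870c49_nt.FinitelyManyGraphs
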