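import Pool.Graph.R_pool_sql_team_seeded_2aa45f1a.Q68.OV.Line
import Pool.Agent.Helper10.PC.Pair

/-!
# The transcendental part of singular K3 surfaces and smooth moduli surfaces of planar configurations

Let `S` be a singular K3 surface over `ℚ`. The question Q1 for `S` is whether the period of the regulator of
every nonzero `ξ` in `H_M^3(S, ℚ(4))_tr` is a nonzero rational multiple of `L'(h^2_tr(S), -1)`
(`PeriodStatement`).

For a smooth projective scheme `Y` over `ℚ` let `M(Y) = H_M^3(Y, ℚ(4))`, `D(Y) = H_𝒟^3(Y_ℝ, ℝ(4))`, and
`r : M(Y) → D(Y)` the regulator; here `M(S)` contains `T = H_M^3(S, ℚ(4))_tr`, and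
`D(S) = H^2(S(ℂ), ℝ(3))^+` contains the real line `P` of the transcendental classes; the period of a class
in `P` is `(2πi)^{-3}` times its pairing with `γ`. The cycles `c` on `S × Y` of the codimension `2` operate by
`c_*` on both. Let `V ⊆ P` be the rational line of the classes whose period is a rational multiple of
`L'(h^2_tr(S), -1)`. Let `A(Y) ⊆ D(Y)` be the rational subspace generated by the images `c_* V`, and
`B(Y) = B_1(Y) ⊕ B_2(Y)`, where `B_1(Y) ⊆ D(Y)` is generated by `A(Y)` and the `c_* r(x)`, `x` in `T`, and
`B_2(Y) ⊆ M(Y)` by the `c_* x`, `x` in `T` with `r(x) = 0`, for all cycles `c` as above. They are additive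
functors of the effective Chow motive of `Y`, and the map `A(Y) → B(Y)` (the inclusion in `B_1(Y)`) is
bijective if and only if all these `c_* r(x)` are in `A(Y)` and all these `c_* x` with `r(x) = 0` are zero
(`LineStable D 4`; only the index `4` of the library data is used). For a separated scheme `Z` of finite type
over `ℚ` let `W(Z)` be its weight complex (Gillet, Soulé; `W(Z) = h(Z)` for smooth projective `Z`), and put
`A^i(Z) = H^i(A(W(Z)))`, `B^i(Z) = H^i(B(W(Z)))`. `BijAll C Z` says that the maps `A^i(Z) → B^i(Z)` are
isomorphisms for all `i`. The facts which are used: isomorphism invariance, `W(∅) = 0`, long exact sequences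
of closed-open pairs (`IsCutPair`; neither Tate twists, nor affine bundles, nor products with `𝔾_m`), and
that `W(Z)` consists of direct factors of motives of smooth projective schemes whose dimension is at most
the dimension of `Z` (`AllGen`, `BijDim`).

A matroid `M` of rank three on the set `Fin 4 ⊕ Fin n` is **framed** if any three of the four elements of
`Fin 4` form a base; it is **simple** if any two elements are independent. Let `modS ℚ M` be the moduli
space over `ℚ` of the configurations of `n + 4` different points in the projective plane in which exactly
the triples prescribed by `M` are collinear, modulo projective transformations: the four points of `Fin 4`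
are the points of `e_1, e_2, e_3, e_1 + e_2 + e_3`, and the other ones have normalised coordinates.

**Theorem.** (1) For each `S` there is a finite list `L` of simple matroids of rank three, whose moduli
spaces are integral, smooth, and of dimension at most two (at most `dim S`), such that the following
statements are equivalent: the question Q1 has a positive answer for `S`; the maps are isomorphisms for all
separated schemes `Z` of finite type over `ℚ`; they are isomorphisms for the finitely many moduli spaces
`Z = modS ℚ M`, `M` in `L`.

(2) Take the family of **all** singular K3 surfaces over `ℚ`, and for `C` the product of their comparison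
maps. The following are equivalent: the question Q1 has a positive answer for all singular K3 surfaces over
`ℚ`; the maps are isomorphisms for all separated schemes `Z` of finite type over `ℚ` of dimension at most
two; they are isomorphisms for the integral smooth moduli spaces `Z = modS ℚ M` of dimension at most two,
for all simple framed matroids `M` of rank three.

The earlier reductions (to cubic hypersurfaces, graph hypersurfaces, independence polynomials) lead to
singular schemes of unbounded dimension and need all indices `m`. In the background is the theorem
`Pool.Agent.Helper13.RM.config_list` on arbitrary properties of schemes that are closed under cutting.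
-/

set_option autoImplicit false

open AlgebraicGeometry Pool.Agent.Y116.UV Pool.Agent.Z125.UN Pool.Agent.Q193.LT
  Pool.Agent.Helper3.GU Pool.Agent.Q68.OV Pool.Agent.Helper13.RM Pool.Agent.Helper10.PC

universe w u v

namespace Pool.Agent.Results.MP_870c49_nt.PlanarConfigurations

lemma period_of_stable {S : Sch ℚ} {D : LineData.{w, u} ℚ S 4} (hD : IsLine D)
    (h : LineStable D 4 S) : PeriodStatement D := by
  rw [← line_holds_iff hD]
  intro x hx
  have h1 := (line_closed_iff 4 S).mpr h (lineReach D).one x hx
  rwa [(line_isReach hD).act_one] at h1

lemma stable_of_period {S : Sch ℚ} {D : LineData.{w, u} ℚ S 4} (hD : IsLine D)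
    (h : PeriodStatement D) (Y : Sch ℚ) (hY : SmoothProj Y) : LineStable D 4 Y := by
  rw [← line_closed_iff]
  intro c x hx
  exact (line_isReach hD).act_mem 4 Y hY c x ((line_holds_iff hD).mpr h x hx)

/-- **The transcendental part of singular K3 surfaces and smooth moduli surfaces of planar
configurations.** See the explanations above. -/
theorem result :
    (∀ {S : Sch ℚ}, SmoothProj S →
      ∃ L : List Mat, (∀ M ∈ L, SmoothMod ℚ (topologicalKrullDim S.left) M.2) ∧
        ∀ (D : LineData.{w, u} ℚ S 4) (C : PairData.{w} ℚ ℤ ℚ) {δ : ℤ ≃ ℤ}, IsLine D →
          IsCutPair C δ → AllGen C → (∀ Y, SmoothProj Y → (BijAll C Y ↔ LineStable D 4 Y)) →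
          List.TFAE [PeriodStatement D,
            ∀ X : Sch ℚ, FT True X → BijAll C X,
            ∀ M ∈ L, BijAll C (modS ℚ M.2)]) ∧
    ∀ {I : Type v} (S : I → Sch ℚ), (∀ a, SmoothProj (S a)) → (∀ a, DimAt (S a) 2) →
      ∀ (D : ∀ a, LineData.{w, u} ℚ (S a) 4) {ι : Type} (C : PairData.{w} ℚ ι ℚ) {δ : ι ≃ ι},
        (∀ a, IsLine (D a)) → IsCutPair C δ → BijDim C →
        (∀ Y, SmoothProj Y → (BijAll C Y ↔ ∀ a, LineStable (D a) 4 Y)) →
        List.TFAE [∀ a, PeriodStatement (D a),
          ∀ X : Sch ℚ, FT True X → DimAt X 2 → BijAll C X,
          ∀ (m : ℕ) (M : Matroid (Fin 4 ⊕ Fin m)), SmoothMod ℚ 2 M → BijAll C (modS ℚ M)] := by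
  refine ⟨fun {S} hS => ?_, fun {I} S hS dS D {ι} C {δ} hD hC gC bij => ?_⟩
  · obtain ⟨L, hL, h⟩ := list_tfae frac_rat S hS
    exact ⟨L, hL, fun D C {δ} hD hC hg bij => h C hC hg (PeriodStatement D)
      (fun h => period_of_stable hD ((bij S hS).mp h))
      fun h Y hY => (bij Y hY).mpr (stable_of_period hD h Y hY)⟩
  · exact family_tfae frac_rat hC gC 2 S hS dS (fun a => PeriodStatement (D a))
      (fun a => LineStable (D a) 4) bij (fun a h => period_of_stable (hD a) h)
      fun a h Y hY => stable_of_period (hD a) h Y hY

end Pool.Agent.Results.MP_870c49_nt.PlanarConfigurations
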