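import Pool.Graph.R_pool_sql_team_seeded_2aa45f1a.Q68.OV.Line
import Pool.Agent.Helper53.SZ.Pair

/-!
# The transcendental part of one singular K3 surface and matrices with square zero

Let `S` be **one** singular K3 surface over `ℚ`. The question Q1 for `S` is whether the period of the
regulator of every nonzero `ξ` in `H_M^3(S, ℚ(4))_tr` is a nonzero rational multiple of
`L'(h^2_tr(S), -1)` (`PeriodStatement`).

Only **one index** is used. For a smooth projective scheme `Y` over `ℚ` let `M(Y) = H_M^3(Y, ℚ(4))`,
`D(Y) = H_𝒟^3(Y_ℝ, ℝ(4))`, and `r : M(Y) → D(Y)` the regulator; here `M(S)` contains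
`T = H_M^3(S, ℚ(4))_tr`, and `D(S) = H^2(S(ℂ), ℝ(3))^+` contains the real line `P` of the transcendental
classes; the period of a class in `P` is `(2πi)^{-3}` times its pairing with `γ`. The cycles `c` of
codimension two on `S × Y` (correspondences of degree zero) operate by `c_*` on both. Let `V ⊆ P` be the
rational line of the classes whose period is a rational multiple of `L'(h^2_tr(S), -1)`. Let
`A(Y) ⊆ D(Y)` be the rational subspace generated by the images `c_* V`, and `B(Y) = B_1(Y) ⊕ B_2(Y)`, where
`B_1(Y) ⊆ D(Y)` is generated by `A(Y)` and the `c_* r(x)`, `x` in `T`, and `B_2(Y) ⊆ M(Y)` by the `c_* x`,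
`x` in `T` with `r(x) = 0`, for all cycles `c` as above. They are additive functors of the effective Chow
motive of `Y`, and the map `A(Y) → B(Y)` (the inclusion in `B_1(Y)`) is bijective if and only if all these
`c_* r(x)` are in `A(Y)` and all these `c_* x` with `r(x) = 0` are zero (`LineStable D 4 Y`). For a separated
scheme `Z` of finite type over `ℚ` let `W(Z)` be its weight complex (Gillet, Soulé; a complex of effective
Chow motives, `W(Z) = h(Z)` for smooth projective `Z`), and put `A^i(Z) = H^i(A(W(Z)))`,
`B^i(Z) = H^i(B(W(Z)))`. `BijAll C Z` says that the maps `A^i(Z) → B^i(Z)` are isomorphisms for all `i`. The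
complex `W(Z × 𝔾_m)` is the direct sum of `W(Z)[-1]` and of the twist `W(Z)(-1)`; only the first summand
is used (`IsPairOne`).

**Theorem.** There is a finite list `L` of sets of positions above the diagonal of square matrices, which
depends only on `S`, such that the following statements are equivalent.

* The question Q1 has a positive answer for `S` (`PeriodStatement`).
* The maps `A^i(Z) → B^i(Z)` are isomorphisms for all separated schemes `Z` of finite type over `ℚ`.
* They are isomorphisms for the schemes `Z` of the matrices `N` with `N² = 0` and with zeros outside of the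
  positions of a pattern in `L`.

The data (`LineData`, `IsLine`) are those of the theorem on finitely many cubic hypersurfaces
`T(x, y, z) = 1` of the library; of `LineData` only the index `4` is used.
-/

set_option autoImplicit false

open AlgebraicGeometry Pool.Agent.Y116.UV Pool.Agent.Q193.LT Pool.Agent.Q282.UK
  Pool.Agent.Q68.OV Pool.Agent.Helper53.SZ

universe w u

namespace Pool.Agent.Results.MP_870c49_nt.SquareZeroMatrices

/-- **The transcendental part of one singular K3 surface and matrices with square zero.** See the
explanations above. -/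
theorem result {S : Sch ℚ} (hS : SmoothProj S) :
    ∃ L : List (Σ m : ℕ, Fin m → Fin m → Prop), (∀ G ∈ L, ∀ i j, G.2 i j → i < j) ∧
      ∀ (D : LineData.{w, u} ℚ S 4) (C : PairData.{w} ℚ ℤ ℚ) {δ σ : ℤ ≃ ℤ}, IsLine D →
        IsPairOne C δ σ → PairGen C →
        (∀ Y, SmoothProj Y → (BijAll C Y ↔ LineStable D 4 Y)) →
        [PeriodStatement D,
          ∀ X : Sch ℚ, FT True X → BijAll C X,
          ∀ G ∈ L, BijAll C (squareZero ℚ G.2)].TFAE := by
  obtain ⟨L, hL, h⟩ := pair_list (presents_frac frac_rat) S hS
  refine ⟨L, hL, fun D C {δ σ} hD hC hg bij => h C hC hg (PeriodStatement D) (fun h => ?_)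
    fun h Y hY => (bij Y hY).mpr ?_⟩
  · rw [← line_holds_iff hD]
    intro x hx
    have h1 := (line_closed_iff 4 S).mpr ((bij S hS).mp h) (lineReach D).one x hx
    rwa [(line_isReach hD).act_one] at h1
  · rw [← line_closed_iff]
    intro c x hx
    exact (line_isReach hD).act_mem 4 Y hY c x ((line_holds_iff hD).mpr h x hx)

end Pool.Agent.Results.MP_870c49_nt.SquareZeroMatrices
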